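import Mathlib
import Pool.Agent.K7.H15.Pyth.Pairs

/-!
# Arbitrary colourings without Pythagorean triples: almost all pairs of dilates are far apart

Let `μ` be a finitely additive probability measure on the positive integers which is invariant under
dilations, and let `A` be ANY set with `μ(A) = α > 0`. Suppose that for every Pythagorean triple
`x, y, z` one has `μ {n : x n, y n, z n ∈ A} < α ^ 4 / 1000` (for instance, that `A` contains no
Pythagorean triple). Then for almost all pairs of positive integers `k, l` the symmetric difference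
of `A / k` and `A / l` has measure more than `α ^ 6 / 800000`: the number of the exceptional pairs
up to `N` is `o(N ^ 2)`. The same is true for pairs of primes (`o(π(N) ^ 2)` exceptional pairs), and
there is no arithmetic progression of more than `L(A)` positive integers `m` for which the sets
`A / m` have measure distance at most `α ^ 6 / 400000` from the first of them.

In particular, if a colouring `c` with `r` colours has no monochromatic Pythagorean triple, then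
`μ {n : c (k n) ≠ c (l n)} > 1 / (800000 r ^ 6)` for almost all pairs of integers and of primes.

The method is a density increment argument, described in `PrimeDilates`; the arithmetic progressions
of nearly equal dilates come from Szemerédi's theorem and from the theorem of Green and Tao for dense
sets of primes.
-/

set_option autoImplicit false

open Filter

namespace Pool.Agent.Results.MP_0f91f8_co.AlmostAllPairs

/-- The dilate `A / m = {n : m n ∈ A}`. -/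
def dilate (m : ℕ) (A : Set ℕ) : Set ℕ := {n | m * n ∈ A}

/-- A finitely additive probability measure on the positive integers, invariant under dilations. -/
structure InvariantMean (μ : Set ℕ → ℝ) : Prop where
  nonneg : ∀ A, 0 ≤ μ A
  univ : μ Set.univ = 1
  add : ∀ A B, Disjoint A B → μ (A ∪ B) = μ A + μ B
  zero : μ {0} = 0
  inv : ∀ m : ℕ, 0 < m → ∀ A, μ (dilate m A) = μ A

/-- Almost all pairs of positive integers satisfy `R`: for every `κ > 0` and all large `N` the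
number of the pairs `k, l ≤ N` which do not satisfy `R` is less than `κ N ^ 2`. -/
def AlmostAllIntegers (R : ℕ → ℕ → Prop) : Prop := ∀ κ : ℝ, 0 < κ → ∀ᶠ N : ℕ in atTop,
  ({m : ℕ × ℕ | (0 < m.1 ∧ m.1 ≤ N) ∧ (0 < m.2 ∧ m.2 ≤ N) ∧ ¬ R m.1 m.2}.ncard : ℝ) <
    κ * (N : ℝ) ^ 2

/-- Almost all pairs of primes satisfy `R`: for every `κ > 0` and all large `N` the
number of the pairs of primes `k, l ≤ N` which do not satisfy `R` is less than `κ π(N) ^ 2`. -/
def AlmostAllPrimes (R : ℕ → ℕ → Prop) : Prop := ∀ κ : ℝ, 0 < κ → ∀ᶠ N : ℕ in atTop,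
  ({m : ℕ × ℕ | (m.1.Prime ∧ m.1 ≤ N) ∧ (m.2.Prime ∧ m.2 ≤ N) ∧ ¬ R m.1 m.2}.ncard : ℝ) <
    κ * (Nat.primeCounting N : ℝ) ^ 2

open Pool.Agent.R329.VC Pool.Agent.K7.H15.Pyth

theorem mean_iff {μ : Set ℕ → ℝ} (h : InvariantMean μ) : IsInvariantMean μ :=
  { nonneg := h.nonneg, univ := h.univ, add := h.add, zero := h.zero, inv := h.inv }

/-- The main result; see the description above. -/
theorem result (μ : Set ℕ → ℝ) (hμ : InvariantMean μ) :
    -- sets
    (∀ A : Set ℕ, 0 < μ A →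
      (∀ x y z : ℕ, 0 < x → 0 < y → 0 < z → x ^ 2 + y ^ 2 = z ^ 2 →
        μ {n | x * n ∈ A ∧ y * n ∈ A ∧ z * n ∈ A} < (μ A) ^ 4 / 1000) →
      AlmostAllIntegers (fun k l => (μ A) ^ 6 / 800000 < μ (symmDiff (dilate k A) (dilate l A))) ∧
      AlmostAllPrimes (fun k l => (μ A) ^ 6 / 800000 < μ (symmDiff (dilate k A) (dilate l A))) ∧
      ∃ L : ℕ, ∀ a d : ℕ, 0 < a → 0 < d →
        ∃ i < L, (μ A) ^ 6 / 400000 < μ (symmDiff (dilate (a + i * d) A) (dilate a A))) ∧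
    -- colourings
    (∀ (r : ℕ) (c : ℕ → Fin r),
      (∀ x y z : ℕ, 0 < x → 0 < y → 0 < z → x ^ 2 + y ^ 2 = z ^ 2 →
        μ {n | c (x * n) = c (y * n) ∧ c (y * n) = c (z * n)} < 1 / (1000 * r ^ 4)) →
      AlmostAllIntegers (fun k l => 1 / (800000 * r ^ 6) < μ {n | c (k * n) ≠ c (l * n)}) ∧
      AlmostAllPrimes (fun k l => 1 / (800000 * r ^ 6) < μ {n | c (k * n) ≠ c (l * n)})) := by
  classical
  have hμ' := mean_iff hμ
  have hsets : ∀ A : Set ℕ, 0 < μ A →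
      (∀ x y z : ℕ, 0 < x → 0 < y → 0 < z → x ^ 2 + y ^ 2 = z ^ 2 →
        μ {n | x * n ∈ A ∧ y * n ∈ A ∧ z * n ∈ A} < (μ A) ^ 4 / 1000) →
      AlmostAllIntegers (fun k l => (μ A) ^ 6 / 800000 < μ (symmDiff (dilate k A) (dilate l A))) ∧
      AlmostAllPrimes (fun k l => (μ A) ^ 6 / 800000 < μ (symmDiff (dilate k A) (dilate l A))) ∧
      ∃ L : ℕ, ∀ a d : ℕ, 0 < a → 0 < d →
        ∃ i < L, (μ A) ^ 6 / 400000 < μ (symmDiff (dilate (a + i * d) A) (dilate a A)) := by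
    intro A hA hno
    have hcontra : ¬ ∃ x y z : ℕ, 0 < x ∧ 0 < y ∧ 0 < z ∧ x ^ 2 + y ^ 2 = z ^ 2 ∧
        (μ A) ^ 4 / 1000 ≤ μ {n | x * n ∈ A ∧ y * n ∈ A ∧ z * n ∈ A} := by
      rintro ⟨x, y, z, hx, hy, hz, hxyz, h⟩
      exact absurd h (not_le.2 (hno x y z hx hy hz hxyz))
    refine ⟨?_, ?_, ?_⟩
    · intro κ hκ
      by_contra hcon
      rw [not_eventually] at hcon
      refine hcontra (pairs_int hμ' hA hκ (hcon.mono fun N hN => ?_))
      rw [not_lt] at hN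
      refine hN.trans (le_of_eq ?_)
      rw [← Set.ncard_coe_finset]
      congr 2
      ext m
      simp only [Set.mem_ofPred_eq, Finset.coe_filter, Finset.mem_product, Finset.mem_Ioc, not_lt]
      constructor
      · rintro ⟨a1, a2, a3⟩
        exact ⟨⟨a1, a2⟩, a3⟩
      · rintro ⟨⟨a1, a2⟩, a3⟩
        exact ⟨a1, a2, a3⟩
    · intro κ hκ
      by_contra hcon
      rw [not_eventually] at hcon
      refine hcontra (pairs_prime hμ' hA hκ (hcon.mono fun N hN => ?_))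
      rw [not_lt] at hN
      refine hN.trans (le_of_eq ?_)
      rw [← Set.ncard_coe_finset]
      congr 2
      ext m
      simp only [Set.mem_ofPred_eq, Finset.coe_filter, Finset.mem_product, Finset.mem_Ioc,
        Finset.mem_filter, not_lt]
      constructor
      · rintro ⟨⟨a1, a2⟩, ⟨a3, a4⟩, a5⟩
        exact ⟨⟨⟨⟨a1.pos, a2⟩, a1⟩, ⟨a3.pos, a4⟩, a3⟩, a5⟩
      · rintro ⟨⟨⟨⟨-, a2⟩, a1⟩, ⟨-, a4⟩, a3⟩, a5⟩
        exact ⟨⟨a1, a2⟩, ⟨a3, a4⟩, a5⟩
    · by_contra hcon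
      push Not at hcon
      exact hcontra (nat_main hμ' hA hcon)
  refine ⟨hsets, ?_⟩
  intro r c hno
  obtain ⟨i, hi⟩ := big_class hμ' c
  have hr : 0 < r := by
    rcases Nat.eq_zero_or_pos r with rfl | h
    · exact (c 0).elim0
    · exact h
  have hr' : (0 : ℝ) < r := by exact_mod_cast hr
  have hr1 : (0 : ℝ) < 1 / r := by positivity
  set A : Set ℕ := {n | c n = i} with hA
  have hpos : 0 < μ A := lt_of_lt_of_le hr1 hi
  have h6 : 1 / (800000 * (r : ℝ) ^ 6) ≤ (μ A) ^ 6 / 800000 := by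
    have h2 : (1 / (r : ℝ)) ^ 6 ≤ μ A ^ 6 := by gcongr
    have h3 : 1 / (800000 * (r : ℝ) ^ 6) = (1 / (r : ℝ)) ^ 6 / 800000 := by
      field_simp
    rw [h3]
    gcongr
  have h4 : 1 / (1000 * (r : ℝ) ^ 4) ≤ (μ A) ^ 4 / 1000 := by
    have h2 : (1 / (r : ℝ)) ^ 4 ≤ μ A ^ 4 := by gcongr
    have h3 : 1 / (1000 * (r : ℝ) ^ 4) = (1 / (r : ℝ)) ^ 4 / 1000 := by
      field_simp
    rw [h3]
    gcongr
  have hsub : ∀ k l : ℕ, symmDiff (dilate k A) (dilate l A) ⊆ {n | c (k * n) ≠ c (l * n)} := by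
    intro k l n hn
    simp only [Set.mem_symmDiff, dilate, hA, Set.mem_ofPred_eq] at hn ⊢
    intro heq
    rw [heq] at hn
    tauto
  have himp : ∀ k l : ℕ, (μ A) ^ 6 / 800000 < μ (symmDiff (dilate k A) (dilate l A)) →
      1 / (800000 * (r : ℝ) ^ 6) < μ {n | c (k * n) ≠ c (l * n)} := fun k l h =>
    lt_of_le_of_lt h6 (h.trans_le (mean_mono hμ' (hsub k l)))
  obtain ⟨h1, h2, -⟩ := hsets A hpos (by
    intro x y z hx hy hz hxyz
    refine lt_of_le_of_lt (mean_mono hμ' ?_) ((hno x y z hx hy hz hxyz).trans_le h4)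
    rintro n ⟨a1, a2, a3⟩
    exact ⟨Eq.trans a1 (Eq.symm a2), Eq.trans a2 (Eq.symm a3)⟩)
  have hfin1 : ∀ N : ℕ, {m : ℕ × ℕ | m.1 ≤ N ∧ m.2 ≤ N}.Finite := by
    intro N
    refine (Finset.finite_toSet (Finset.Iic N ×ˢ Finset.Iic N)).subset ?_
    rintro ⟨a, b⟩ ⟨h1, h2⟩
    simp only [Finset.coe_product, Finset.coe_Iic, Set.mem_prod, Set.mem_Iic]
    exact ⟨h1, h2⟩
  constructor
  · intro κ hκ
    filter_upwards [h1 κ hκ] with N hN
    refine lt_of_le_of_lt ?_ hN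
    have : {m : ℕ × ℕ | (0 < m.1 ∧ m.1 ≤ N) ∧ (0 < m.2 ∧ m.2 ≤ N) ∧
        ¬ (1 / (800000 * (r : ℝ) ^ 6) < μ {n | c (m.1 * n) ≠ c (m.2 * n)})} ⊆
        {m : ℕ × ℕ | (0 < m.1 ∧ m.1 ≤ N) ∧ (0 < m.2 ∧ m.2 ≤ N) ∧
        ¬ ((μ A) ^ 6 / 800000 < μ (symmDiff (dilate m.1 A) (dilate m.2 A)))} := by
      rintro m ⟨a1, a2, a3⟩
      exact ⟨a1, a2, fun h => a3 (himp _ _ h)⟩
    exact_mod_cast Set.ncard_le_ncard this ((hfin1 N).subset fun m hm => ⟨hm.1.2, hm.2.1.2⟩)
  · intro κ hκ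
    filter_upwards [h2 κ hκ] with N hN
    refine lt_of_le_of_lt ?_ hN
    have : {m : ℕ × ℕ | (m.1.Prime ∧ m.1 ≤ N) ∧ (m.2.Prime ∧ m.2 ≤ N) ∧
        ¬ (1 / (800000 * (r : ℝ) ^ 6) < μ {n | c (m.1 * n) ≠ c (m.2 * n)})} ⊆
        {m : ℕ × ℕ | (m.1.Prime ∧ m.1 ≤ N) ∧ (m.2.Prime ∧ m.2 ≤ N) ∧
        ¬ ((μ A) ^ 6 / 800000 < μ (symmDiff (dilate m.1 A) (dilate m.2 A)))} := by
      rintro m ⟨a1, a2, a3⟩
      exact ⟨a1, a2, fun h => a3 (himp _ _ h)⟩
    exact_mod_cast Set.ncard_le_ncard this ((hfin1 N).subset fun m hm => ⟨hm.1.2, hm.2.1.2⟩)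

end Pool.Agent.Results.MP_0f91f8_co.AlmostAllPairs
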