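import Pool.Agent.K7.H68.PY.Uni

/-!
# Pythagorean triples: digital, analytic, tame and multiplicative colourings together

The following four kinds of colourings of the positive integers are very different from each other:

* automatic sequences, in one or several bases (for instance the Thue-Morse sequence, or any
  function of the last nonzero digit, of the number of occurrences of a block of digits modulo `d`);
* the signs of generalised polynomials (for instance Bohr colourings and nilsequences);
* sets which shatter no infinite set for the dilations `n ↦ m n` (for instance sets of finite VC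
  dimension, sets `{n : φ(n) ≥ 0}`, where `φ` is a polynomial in completely additive functions);
* open sets in the values of a completely multiplicative map to a compact abelian group (for
  instance the Liouville function, or infinitely many completely multiplicative functions).

We prove that every colouring which is a function of finitely many data of all these kinds
*simultaneously* has monochromatic Pythagorean triples, for instance a colouring `n ↦ t(n) λ(n)`
with the Thue-Morse sequence `t` and the Liouville function `λ`. (The first kind cannot be treated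
together with the last two by the known methods: an automatic sequence has infinitely many dilates,
which are not totally bounded, and an automatic sequence is not constant on any multiplicatively
thick set in general.)

Method.
1. Let `k_1, …, k_m` be the bases. There is an integer `K` such that every base is, up to factors
   which have no influence on the first digits, a power of a divisor of `K`, and there are `B, L, ε`
   such that the following is true for the semigroup `S` of the integers `K ^ (B j) w`, `j ≥ 0`,
   `w ≡ 1 (mod K ^ L)`, and for its subset `S'` of all `n` such that `log n` is close to a multiple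
   of `P_t = p_t log k_t` for each `t`: there is an *additively idempotent ultrafilter* `U` of
   positive integers such that, for all `n ∈ S'`, the automata do the same when they read the
   digits of `n d`, for `U`-almost all `d`. (The digits of `n d` contain at a low and at a high
   position words of minimal rank, and suitable powers of the maps of the states become idempotents
   which do not depend on `n`; the idempotents give a compact semigroup of ultrafilters.)
   By the theory of generalised polynomials along idempotent ultrafilters, the signs of the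
   generalised polynomials at `n d` do not depend on the large `n`, for almost all `d`.
2. `S` carries a finitely additive probability `μ` invariant under the dilations by elements of `S`.
   A limit of dilates of a set which shatters no infinite set has the same property, hence its
   dilates by elements of `S` are totally bounded for `μ`, so they define a seminorm on the group
   `G` generated by `S`, and a homomorphism of the positive rationals to a locally compact group in
   which `G` goes to a compact subgroup.
3. A relative version of the theorem on multiplicative Bohr sets: there are Pythagorean triples in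
   `S` for which the values of such a homomorphism are close to zero. For this, one constructs with
   the theorem of Hales and Jewett (with steps in the powers of `K`) ultrafilters of rationals `t`
   such that `F (t + b)` converges to the same limit for all rationals `b` and such that `t + b` is
   in `G`. The addition theorem `(t s - 1) / (t + s)` of the cotangent preserves this property, and
   it adds the defects `F (1 + t ^ 2) - 2 F t`, which lie in the compact subgroup. The `K`-adic
   behaviour of the triple `t ^ 2 - 1, 2 t, t ^ 2 + 1` is controlled, because the property for `G`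
   forces `t` to be large and positive, and `K`-adically large.
-/

set_option autoImplicit false

namespace Pool.Agent.Results.MP_0f91f8_co.AutomaticTameMultiplicative

/-- `c` is `k`-automatic: its `k`-kernel, the set of all subsequences `n ↦ c (k ^ i * n + j)` with
`j < k ^ i`, is finite. -/
def IsAutomatic {C : Type*} (k : ℕ) (c : ℕ → C) : Prop :=
  {f : ℕ → C | ∃ i j : ℕ, j < k ^ i ∧ f = fun n => c (k ^ i * n + j)}.Finite

/-- Generalised polynomials: obtained from real constants and the variable by addition,
multiplication and the floor function. -/
inductive GenPoly : (ℕ → ℝ) → Prop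
  | const (c : ℝ) : GenPoly (fun _ => c)
  | var : GenPoly (fun n => (n : ℝ))
  | add {f g : ℕ → ℝ} : GenPoly f → GenPoly g → GenPoly (fun n => f n + g n)
  | mul {f g : ℕ → ℝ} : GenPoly f → GenPoly g → GenPoly (fun n => f n * g n)
  | floor {f : ℕ → ℝ} : GenPoly f → GenPoly (fun n => (⌊f n⌋ : ℝ))

/-- `A` shatters no infinite set `M` of positive integers: there are finite sets `T ⊆ S ⊆ M` such
that for no `m ≥ 1` one has `m n ∈ A ↔ n ∈ T` for all `n ∈ S`. -/
def ShattersNoInfiniteSet (A : Set ℕ) : Prop := ∀ M : Set ℕ, M.Infinite → (∀ n ∈ M, 0 < n) →
  ∃ S T : Finset ℕ, (∀ n ∈ S, n ∈ M) ∧ T ⊆ S ∧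
    ∀ m : ℕ, 0 < m → ¬ ∀ n ∈ S, (m * n ∈ A ↔ n ∈ T)

/-- `A` has VC dimension at most `d` with respect to dilations. -/
def VCDimLe (d : ℕ) (A : Set ℕ) : Prop := ∀ S : Finset ℕ,
  (∀ T : Finset ℕ, T ⊆ S → ∃ m : ℕ, 0 < m ∧ ∀ n ∈ S, (m * n ∈ A ↔ n ∈ T)) → S.card ≤ d

/-- The dilates of `φ` (on the positive integers) lie in a space of finite dimension. -/
def FiniteDimensional (φ : ℕ → ℝ) : Prop := ∃ (ι : Type) (_ : Fintype ι) (u : ι → ℕ → ℝ),
  ∀ m : ℕ, 0 < m → ∃ a : ι → ℝ, ∀ n : ℕ, 0 < n → φ (m * n) = ∑ j, a j * u j n

/-- The sequences `c t` have the same values, the functions `g i` the same signs (`-`, `0` or `+`),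
and the sets `A i` the same membership at `x` and at `y`. -/
structure Similar {m s r : ℕ} {C : Type*} (c : Fin m → ℕ → C) (g : Fin s → ℕ → ℝ)
    (A : Fin r → Set ℕ) (x y : ℕ) : Prop where
  values : ∀ t, c t x = c t y
  signs : ∀ i, SignType.sign (g i x) = SignType.sign (g i y)
  members : ∀ i, x ∈ A i ↔ y ∈ A i

theorem GenPoly.toEx {f : ℕ → ℝ} (h : GenPoly f) :
    ∃ e : Pool.Agent.H638.GP.Ex, ∀ n, e.ev n = f n := by
  induction h with
  | const c => exact ⟨.const c, fun n => rfl⟩
  | var => exact ⟨.var, fun n => rfl⟩
  | add _ _ h1 h2 =>
    obtain ⟨a, ha⟩ := h1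
    obtain ⟨b, hb⟩ := h2
    exact ⟨.add a b, fun n => by simp only [Pool.Agent.H638.GP.Ex.ev]; rw [ha, hb]⟩
  | mul _ _ h1 h2 =>
    obtain ⟨a, ha⟩ := h1
    obtain ⟨b, hb⟩ := h2
    exact ⟨.mul a b, fun n => by simp only [Pool.Agent.H638.GP.Ex.ev]; rw [ha, hb]⟩
  | floor _ h1 =>
    obtain ⟨a, ha⟩ := h1
    exact ⟨.fl a, fun n => by simp only [Pool.Agent.H638.GP.Ex.ev]; rw [ha]⟩

/-- **Main result.** -/
theorem result.{u, v} :
    -- (1) automatic sequences `c t` in arbitrary bases, generalised polynomials `g i`, sets `A i`
    -- which shatter no infinite set, and a completely multiplicative map `f` to a compact group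
    (∀ {m s r : ℕ} {C : Type u} (k : Fin m → ℕ), (∀ t, 2 ≤ k t) →
      ∀ c : Fin m → ℕ → C, (∀ t, IsAutomatic (k t) (c t)) →
      ∀ g : Fin s → ℕ → ℝ, (∀ i, GenPoly (g i)) →
      ∀ A : Fin r → Set ℕ, (∀ i, ShattersNoInfiniteSet (A i)) →
      ∀ {H : Type v} [AddCommGroup H] [TopologicalSpace H] [IsTopologicalAddGroup H]
        [CompactSpace H] (f : ℕ → H), (∀ a b : ℕ, 0 < a → 0 < b → f (a * b) = f a + f b) →
      ∀ U : Set H, IsOpen U → ∀ n₀ : ℕ, 0 < n₀ → f n₀ ∈ U →
      ∀ N : ℕ, ∃ x y z : ℕ, N < x ∧ N < y ∧ N < z ∧ x ^ 2 + y ^ 2 = z ^ 2 ∧
        Similar c g A x y ∧ Similar c g A y z ∧ f x ∈ U ∧ f y ∈ U ∧ f z ∈ U) ∧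
    -- (2) examples of sets which shatter no infinite set
    (∀ (d : ℕ) (A : Set ℕ), VCDimLe d A → ShattersNoInfiniteSet A) ∧
    (∀ φ : ℕ → ℝ, FiniteDimensional φ → ShattersNoInfiniteSet {n | 0 ≤ φ n}) := by
  refine ⟨?_, fun d A hA => Pool.Agent.R329.VC.NIP.of_vcDim hA, fun φ hφ => ?_⟩
  · intro m s r C k hk c hc g hg A hA H _ _ _ _ f hf U hU n₀ hn₀ hfU N
    choose e he using fun i => (hg i).toEx
    obtain ⟨x, y, z, hx, hy, hz, hxyz, ⟨h1, h2, h3⟩, ⟨h4, h5, h6⟩, hU1, hU2, hU3⟩ :=
      Pool.Agent.K7.H68.PY.main2 k hk c hc e A hA f hf hU n₀ hn₀ hfU N
    simp only [he] at h2 h5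
    exact ⟨x, y, z, hx, hy, hz, hxyz, ⟨h1, h2, h3⟩, ⟨h4, h5, h6⟩, hU1, hU2, hU3⟩
  · obtain ⟨d, hd⟩ := Pool.Agent.K7.H68.PY.vcDim_nonneg hφ
    exact Pool.Agent.R329.VC.NIP.of_vcDim hd

end Pool.Agent.Results.MP_0f91f8_co.AutomaticTameMultiplicative
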