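import Mathlib
import Pool.Agent.K7.H15.Pyth.Stable

/-!
# Pythagorean triples and the dilates of a colouring by primes

Let `P` be any set of primes of positive relative upper density. We prove that a finite colouring
`c` of the positive integers has monochromatic Pythagorean triples if the functions
`n ↦ c (p n)`, `p ∈ P`, are finite in number, or only totally bounded (for the primes of `P` in
`(N / 2, N]`, uniformly in `N`), whatever the dependence of `c` on the other primes. The conclusion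
remains true if the colours are changed arbitrarily on a set `E` with `μ(E) < 1 / 3`, where `μ` is
any finitely additive probability measure on the positive integers which is invariant under
dilations. More generally, if the set `B` has totally bounded dilates `B / p` in this sense then
every set `A` with `μ(A ∩ B) > (2 / 3) μ(B)` contains Pythagorean triples of elements of `B`.

Examples of such colourings: `c(n) = χ(h(n), ⌊F_1(n)⌋, …, ⌊F_k(n)⌋)`, where `χ` is an arbitrary map
into a finite set, `h` is any function such that the functions `n ↦ h (p n)`, `p ∈ P`, are finite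
in number (for instance a function of the part of `n` composed of primes not in `P` and of the
number of prime factors in `P`), and the `F_i` are completely additive real functions with
`F_i(p) = β_i log p + O(1)` for `p ∈ P`.

Method: a density increment argument. Let `μ(A) = α > 0` and let the dilates of `A` nearly agree
along arbitrarily long arithmetic progressions (in dense sets of primes there are such progressions
by the theorem of Green and Tao). Then for every finite set of rationals `b` there are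
rationals `s` for which the dilates by `s + b` nearly agree. For such `s`,
`s ^ 2 - 1`, `2 s`, `s ^ 2 + 1` is a Pythagorean triple whose first member acts as `s ^ 2`. If all
triples have small measure, `A` is almost disjoint from a dilate `F(s)` of
`A ∩ (A / (2 / s))`, the factor being `(1 + s ^ 2) / s ^ 2`. The identity
`(1 + u ^ 2) (1 + s ^ 2) = (u + s) ^ 2 + (1 - u s) ^ 2` shows that the dilate of `F(u)` by
`(1 + s ^ 2) / s ^ 2` is again such a set, hence almost disjoint from `A`, while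
`F(s)` is the dilate of a subset of `A`. So the union of the sets `F` grows by a fixed amount at
every step, a contradiction. The result with `2 / 3` follows by applying this to the members of an
algebra of sets on which `A` has nearly maximal relative density.
-/

set_option autoImplicit false

open Filter

namespace Pool.Agent.Results.MP_0f91f8_co.PrimeDilates

/-- The dilate `A / m = {n : m n ∈ A}`. -/
def dilate (m : ℕ) (A : Set ℕ) : Set ℕ := {n | m * n ∈ A}

/-- A finitely additive probability measure on the positive integers, invariant under dilations. -/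
structure InvariantMean (μ : Set ℕ → ℝ) : Prop where
  nonneg : ∀ A, 0 ≤ μ A
  univ : μ Set.univ = 1
  add : ∀ A B, Disjoint A B → μ (A ∪ B) = μ A + μ B
  zero : μ {0} = 0
  inv : ∀ m : ℕ, 0 < m → ∀ A, μ (dilate m A) = μ A

/-- `P` is a set of primes of positive relative upper density: for some `δ > 0` it contains at least
a proportion `δ` of the primes up to `N`, for infinitely many `N`. -/
def DensePrimes (P : Set ℕ) : Prop := (∀ p ∈ P, p.Prime) ∧
  ∃ δ : ℝ, 0 < δ ∧ ∃ᶠ N : ℕ in atTop, δ * Nat.primeCounting N ≤ ({p : ℕ | p ∈ P ∧ p ≤ N}.ncard : ℝ)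

/-- `p ∈ P` and `N / 2 < p ≤ N`. -/
def Window (P : Set ℕ) (N p : ℕ) : Prop := p ∈ P ∧ N < 2 * p ∧ p ≤ N

/-- The dilates `n ↦ g (p n)`, `p ∈ P ∩ (N / 2, N]`, of the function `g` are totally bounded for the
distance `μ {n : g (p n) ≠ g (q n)}`, uniformly in `N`: for every `ε > 0` there is `k` such that
for every `N` the primes of `P` in `(N / 2, N]` can be divided into `k` classes such that this
distance is at most `ε` if `p` and `q` are in the same class. -/
def Stable (μ : Set ℕ → ℝ) (P : Set ℕ) {Y : Type*} (g : ℕ → Y) : Prop :=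
  ∀ ε : ℝ, 0 < ε → ∃ k : ℕ, ∀ N : ℕ, ∃ f : ℕ → Fin k, ∀ p q : ℕ, Window P N p → Window P N q →
    f p = f q → μ {n | g (p * n) ≠ g (q * n)} ≤ ε

/-- For some `k` and all `N` the primes of `P` in `(N / 2, N]` can be divided into `k` classes such
that `g (p n) = g (q n)` for all `n ≥ 1` if `p` and `q` are in the same class. (For instance, the
functions `n ↦ g (p n)`, `p ∈ P`, are finite in number.) -/
def FewDilates (P : Set ℕ) {Y : Type*} (g : ℕ → Y) : Prop :=
  ∃ k : ℕ, ∀ N : ℕ, ∃ f : ℕ → Fin k, ∀ p q : ℕ, Window P N p → Window P N q → f p = f q →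
    ∀ n : ℕ, 0 < n → g (p * n) = g (q * n)

/-- `F` is completely additive, and its values at the primes of `P` in `(N / 2, N]` differ by at
most `C`, for all `N`. (For instance `F(p) = β log p + O(1)` for `p ∈ P`.) -/
def AdditiveVariation (P : Set ℕ) (C : ℝ) (F : ℕ → ℝ) : Prop :=
  (∀ m n : ℕ, 0 < m → 0 < n → F (m * n) = F m + F n) ∧
    ∀ N p q : ℕ, Window P N p → Window P N q → |F p - F q| ≤ C

/-- The dilates of `A` are totally bounded for the pseudometric `μ (B ∆ C)`. -/
def TotallyBoundedDilates (μ : Set ℕ → ℝ) (A : Set ℕ) : Prop := ∀ ε : ℝ, 0 < ε →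
  ∃ M : Finset ℕ, ∀ n : ℕ, 0 < n → ∃ m ∈ M, 0 < m ∧ μ (symmDiff (dilate m A) (dilate n A)) < ε

/-- `T` contains a dilate of every finite set of positive integers. -/
def Thick (T : Set ℕ) : Prop := ∀ K : ℕ, ∃ m : ℕ, 0 < m ∧ ∀ n : ℕ, 0 < n → n ≤ K → m * n ∈ T

open Pool.Agent.R329.VC Pool.Agent.K7.H15.Pyth

theorem mean_iff {μ : Set ℕ → ℝ} (h : InvariantMean μ) : IsInvariantMean μ :=
  { nonneg := h.nonneg, univ := h.univ, add := h.add, zero := h.zero, inv := h.inv }

theorem mean_iff' {μ : Set ℕ → ℝ} (h : IsInvariantMean μ) : InvariantMean μ :=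
  { nonneg := h.nonneg, univ := h.univ, add := h.add, zero := h.zero, inv := h.inv }

theorem dense_iff {P : Set ℕ} (h : DensePrimes P) : PosRel P := by
  classical
  obtain ⟨h1, δ, hδ, h2⟩ := h
  refine ⟨h1, δ, hδ, h2.mono fun N hN => ?_⟩
  have h3 : {p : ℕ | p ∈ P ∧ p ≤ N} = (((Finset.Ioc 0 N).filter (· ∈ P) : Finset ℕ) : Set ℕ) := by
    ext p
    rw [Finset.coe_filter, Set.mem_ofPred_eq, Set.mem_ofPred_eq, Finset.mem_Ioc]
    constructor
    · rintro ⟨h3, h4⟩
      exact ⟨⟨(h1 p h3).pos, h4⟩, h3⟩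
    · rintro ⟨⟨h3, h4⟩, h5⟩
      exact ⟨h5, h4⟩
  rw [h3, Set.ncard_coe_finset] at hN
  convert hN

/-- The main result; see the description above. -/
theorem result (P : Set ℕ) (hP : DensePrimes P) :
    -- (1) stable colourings, in thick sets
    (∀ (r : ℕ) (c : ℕ → Fin r), (∀ μ : Set ℕ → ℝ, InvariantMean μ → Stable μ P c) →
      ∀ T : Set ℕ, Thick T → ∀ K : ℕ,
      ∃ x y z : ℕ, x ∈ T ∧ y ∈ T ∧ z ∈ T ∧ K < x ∧ K < y ∧ K < z ∧ x ^ 2 + y ^ 2 = z ^ 2 ∧
        c x = c y ∧ c y = c z) ∧
    (∀ μ : Set ℕ → ℝ, InvariantMean μ →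
      -- (2) colourings close to stable colourings
      (∀ (r : ℕ) (c g : ℕ → Fin r), Stable μ P g → μ {n | c n ≠ g n} < 1 / 3 →
        ∃ x y z : ℕ, 0 < x ∧ 0 < y ∧ 0 < z ∧ x ^ 2 + y ^ 2 = z ^ 2 ∧
          0 < μ {n | c (x * n) = c (y * n) ∧ c (y * n) = c (z * n)}) ∧
      -- (3) relatively dense subsets of stable sets
      (∀ A B : Set ℕ, Stable μ P (fun n => n ∈ B) → 2 / 3 * μ B < μ (A ∩ B) →
        ∃ x y z : ℕ, 0 < x ∧ 0 < y ∧ 0 < z ∧ x ^ 2 + y ^ 2 = z ^ 2 ∧
          0 < μ {n | x * n ∈ A ∩ B ∧ y * n ∈ A ∩ B ∧ z * n ∈ A ∩ B}) ∧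
      -- (4) the class of stable functions
      (∀ (Y Z : Type) (g : ℕ → Y) (h : ℕ → Z), Stable μ P g →
        (∀ φ : Y → Z, Stable μ P (fun n => φ (g n))) ∧
        (Stable μ P h → Stable μ P (fun n => (g n, h n)))) ∧
      (∀ (Y : Type) (g : ℕ → Y), FewDilates P g → Stable μ P g) ∧
      (∀ (C : ℝ) (F : ℕ → ℝ), AdditiveVariation P C F → Stable μ P (fun n => ⌊F n⌋)) ∧
      (∀ A : Set ℕ, TotallyBoundedDilates μ A → Stable μ P (fun n => n ∈ A))) := by
  classical
  have hcol : ∀ μ : Set ℕ → ℝ, InvariantMean μ → 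
      ∀ (r : ℕ) (c g : ℕ → Fin r), Stable μ P g → μ {n | c n ≠ g n} < 1 / 3 →
        ∃ x y z : ℕ, 0 < x ∧ 0 < y ∧ 0 < z ∧ x ^ 2 + y ^ 2 = z ^ 2 ∧
          0 < μ {n | c (x * n) = c (y * n) ∧ c (y * n) = c (z * n)} := by
    intro μ hμ r c g hg hcg
    obtain ⟨x, y, z, hx, hy, hz, hxyz, i, hpos⟩ :=
      colour_main (mean_iff hμ) (dense_iff hP).richW c g hg hcg
    refine ⟨x, y, z, hx, hy, hz, hxyz, lt_of_lt_of_le hpos (mean_mono (mean_iff hμ) ?_)⟩
    rintro n ⟨⟨h1, h2, h3⟩, -⟩
    exact ⟨h1.trans h2.symm, h2.trans h3.symm⟩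
  refine ⟨?_, fun μ hμ => ⟨hcol μ hμ, ?_, ?_, ?_, ?_, ?_⟩⟩
  · intro r c hc T hT K
    obtain ⟨μ, hμ0, hμT⟩ := meanStm T hT
    have hμ := mean_iff' hμ0
    have h6 : μ {n | c n ≠ c n} < 1 / 3 := by
      have h7 : {n | c n ≠ c n} ⊆ {0} := fun n hn => absurd rfl hn
      have h8 := mean_mono hμ0 h7
      rw [hμ0.zero] at h8
      linarith
    obtain ⟨x, y, z, hx, hy, hz, hxyz, hpos⟩ := hcol μ hμ r c c (hc μ hμ) h6
    -- inside `T`
    have hTc : μ Tᶜ = 0 := by
      have e1 := hμ0.add T Tᶜ disjoint_compl_right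
      rw [Set.union_compl_self, hμ0.univ, hμT] at e1
      linarith
    have hTx : ∀ m : ℕ, 0 < m → μ (dil m T)ᶜ = 0 := by
      intro m hm
      have e1 : (dil m T)ᶜ = dil m Tᶜ := rfl
      rw [e1, hμ0.inv m hm, hTc]
    set W : Set ℕ := {n | c (x * n) = c (y * n) ∧ c (y * n) = c (z * n)} with hW
    have e1 : W ⊆ (W ∩ (dil x T ∩ dil y T ∩ dil z T)) ∪ ((dil x T)ᶜ ∪ ((dil y T)ᶜ ∪ (dil z T)ᶜ)) := by
      intro n hn
      by_cases a1 : n ∈ dil x T
      · by_cases a2 : n ∈ dil y T
        · by_cases a3 : n ∈ dil z T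
          · exact Or.inl ⟨hn, ⟨a1, a2⟩, a3⟩
          · exact Or.inr (Or.inr (Or.inr a3))
        · exact Or.inr (Or.inr (Or.inl a2))
      · exact Or.inr (Or.inl a1)
    have e2 := (mean_mono hμ0 e1).trans (mean_union_le hμ0 _ _)
    have e3 := mean_union_le hμ0 (dil x T)ᶜ ((dil y T)ᶜ ∪ (dil z T)ᶜ)
    have e4 := mean_union_le hμ0 (dil y T)ᶜ (dil z T)ᶜ
    rw [hTx x hx] at e3
    rw [hTx y hy, hTx z hz] at e4
    have e5 : 0 < μ (W ∩ (dil x T ∩ dil y T ∩ dil z T)) := by linarith
    obtain ⟨n, ⟨⟨hc1, hc2⟩, ⟨hTx', hTy'⟩, hTz'⟩, hn⟩ := exists_large hμ0 e5 K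
    refine ⟨x * n, y * n, z * n, hTx', hTy', hTz', ?_, ?_, ?_, ?_, hc1, hc2⟩
    · exact lt_of_lt_of_le hn (Nat.le_mul_of_pos_left _ hx)
    · exact lt_of_lt_of_le hn (Nat.le_mul_of_pos_left _ hy)
    · exact lt_of_lt_of_le hn (Nat.le_mul_of_pos_left _ hz)
    · rw [mul_pow, mul_pow, mul_pow, ← add_mul, hxyz]
  · intro A B hB hAB
    have h1 : rat B ∈ KK (nu μ) P := by
      have := Stab.mem (mean_iff hμ) hB {q : Prop | q}
      exact this
    exact nat_rel (mean_iff hμ) (dense_iff hP).richW h1 hAB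
  · intro Y Z g h hg
    exact ⟨fun φ => Stab.comp (mean_iff hμ) hg φ, fun hh => Stab.prod (mean_iff hμ) hg hh⟩
  · rintro Y g ⟨k, hk⟩
    exact Stab.few (mean_iff hμ) k hk
  · intro C F hF
    exact Stab.floor (mean_iff hμ) (fun p hp => (hP.1 p hp).pos) hF.1 hF.2
  · intro A hA
    exact Stab.of_totBdd (mean_iff hμ) (fun p hp => (hP.1 p hp).pos) hA

end Pool.Agent.Results.MP_0f91f8_co.PrimeDilates
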