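import Pool.Agent.K7.H63.PY.Fin

/-!
# Pythagorean triples in IP* sets: automatic sequences and powers with real exponents

Let `c` be a finite colouring of the positive integers which is a function of finitely many data of
the following kinds:

* automatic sequences, in one or several bases;
* the signs of generalised polynomials;
* the position of the fractional part of a real linear combination `φ(n)` of powers `n ^ x`, with
  arbitrary real exponents `x > 0`, with respect to a threshold (for instance `⌊α n ^ x⌋ mod d`).

Let `B` be an IP* set (a set which contains a finite sum of distinct terms of every sequence of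
positive integers), let `Z` be a set of natural density zero, and let `F` be a *digital* function
with values in a compact abelian group: `F (n + m) = F n + F m` for all `m` divisible by an integer
which depends on `n`; for instance `α s(n)` modulo one, where `s` is the sum of digits or the number
of occurrences of a block of digits in some base. We prove that there are arbitrarily large
Pythagorean triples of the same colour with members in `B` and not in `Z`, such that moreover the
values of `F` are close to zero and the values of the functions `φ` are close to integers. In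
particular the colours may be changed arbitrarily on a set of density zero.

The last kind of data, IP* sets, digital functions and sets of density zero are new; automatic
sequences, alone or with generalised polynomials, are treated in `AutomaticColourings` and
`AutomaticTameMultiplicative`. The conditions are not compatible a priori: the sets
`{n : ‖n ^ (3/2)‖ < ε}` are not IP* sets, and neither they nor the complements of the sets of density
zero need contain the special integers which are used for automatic sequences.

Method. Let `𝓕` be the filter generated by the complements of the sets of density zero and by the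
sets of the `y` such that `h(y) - [h(y)]` is in `(y ^ (-δ), ε)`, where `h → ∞` is a combination
of powers with positive exponents which are not integers and `[h(y)]` is the nearest integer. By the
Taylor formula `𝓕` is invariant under translations and dilations, and its sets meet all residue
classes in all intervals `[X, (1 + δ) X]`, `X` large (exponential sums, and a quantitative form of
the theorem of Kronecker with the prescribed values `z ^ (x - C)` for `y ^ x`, which gives the right
signs for all `h` at the same time). Therefore the multipliers which one constructs for finite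
automata (whose digits contain words of minimal rank, at a low and at a high position) can be taken
from any given set of `𝓕`, and the ultrafilters which contain `𝓕` and these multipliers form a
compact semigroup. So there is an idempotent ultrafilter which contains `𝓕` and controls the
automata; along idempotent ultrafilters the generalised polynomials and the digital functions are
also under control, and the elements contain all IP* sets.
-/

set_option autoImplicit false

open Topology

namespace Pool.Agent.Results.MP_0f91f8_co.RealPowersIPStarSets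

/-- `c` is `k`-automatic: its `k`-kernel, the set of all subsequences `n ↦ c (k ^ i * n + j)` with
`j < k ^ i`, is finite. -/
def IsAutomatic {C : Type*} (k : ℕ) (c : ℕ → C) : Prop :=
  {f : ℕ → C | ∃ i j : ℕ, j < k ^ i ∧ f = fun n => c (k ^ i * n + j)}.Finite

/-- Generalised polynomials: obtained from real constants and the variable by addition,
multiplication and the floor function. -/
inductive GenPoly : (ℕ → ℝ) → Prop
  | const (c : ℝ) : GenPoly (fun _ => c)
  | var : GenPoly (fun n => (n : ℝ))
  | add {f g : ℕ → ℝ} : GenPoly f → GenPoly g → GenPoly (fun n => f n + g n)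
  | mul {f g : ℕ → ℝ} : GenPoly f → GenPoly g → GenPoly (fun n => f n * g n)
  | floor {f : ℕ → ℝ} : GenPoly f → GenPoly (fun n => (⌊f n⌋ : ℝ))

/-- `φ` is a real linear combination of powers `n ^ x`, with finitely many real exponents
`x > 0`. -/
def RealPowers (φ : ℕ → ℝ) : Prop := ∃ (F : Finset ℝ) (a : ℝ → ℝ), (∀ x ∈ F, 0 < x) ∧
  ∀ n : ℕ, φ n = ∑ x ∈ F, a x * (n : ℝ) ^ x

/-- The distance of `x` to the nearest integer is less than `ε`. -/
def Near (ε x : ℝ) : Prop := |x - round x| < ε

/-- `B` contains a finite sum of distinct terms of every sequence of positive integers. -/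
def IPStar (B : Set ℕ) : Prop := ∀ x : ℕ → ℕ, (∀ i, 0 < x i) →
  ∃ S : Finset ℕ, S.Nonempty ∧ ∑ i ∈ S, x i ∈ B

/-- `Z` has natural density zero. -/
def DensityZero (Z : Set ℕ) : Prop := ∀ ε : ℝ, 0 < ε → ∃ N₀ : ℕ, ∀ N : ℕ, N₀ ≤ N →
  ((Z ∩ Set.Icc 1 N).ncard : ℝ) ≤ ε * N

/-- `F` is digital: for every `n ≥ 1` there is `M ≥ 1` such that `F (n + m) = F n + F m` for all
`m ≥ 1` divisible by `M`. -/
def Digital {G : Type*} [AddCommGroup G] (F : ℕ → G) : Prop :=
  ∀ n : ℕ, 0 < n → ∃ M : ℕ, 0 < M ∧ ∀ m : ℕ, 0 < m → M ∣ m → F (n + m) = F n + F m

/-- The sequences `c t` have the same values, the functions `g i` the same signs (`-`, `0` or `+`),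
and the fractional parts of the functions `φ i` the same position (less, equal or greater) with
respect to `θ i`, at `x` and at `y`. -/
structure Similar {m s w : ℕ} {C : Type*} (c : Fin m → ℕ → C) (g : Fin s → ℕ → ℝ)
    (φ : Fin w → ℕ → ℝ) (θ : Fin w → ℝ) (x y : ℕ) : Prop where
  values : ∀ t, c t x = c t y
  signs : ∀ i, SignType.sign (g i x) = SignType.sign (g i y)
  positions : ∀ i, SignType.sign (Int.fract (φ i x) - θ i) =
    SignType.sign (Int.fract (φ i y) - θ i)

theorem GenPoly.toEx {f : ℕ → ℝ} (h : GenPoly f) :
    ∃ e : Pool.Agent.H638.GP.Ex, ∀ n, e.ev n = f n := by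
  induction h with
  | const c => exact ⟨.const c, fun n => rfl⟩
  | var => exact ⟨.var, fun n => rfl⟩
  | add _ _ h1 h2 =>
    obtain ⟨a, ha⟩ := h1
    obtain ⟨b, hb⟩ := h2
    exact ⟨.add a b, fun n => by simp only [Pool.Agent.H638.GP.Ex.ev]; rw [ha, hb]⟩
  | mul _ _ h1 h2 =>
    obtain ⟨a, ha⟩ := h1
    obtain ⟨b, hb⟩ := h2
    exact ⟨.mul a b, fun n => by simp only [Pool.Agent.H638.GP.Ex.ev]; rw [ha, hb]⟩
  | floor _ h1 =>
    obtain ⟨a, ha⟩ := h1
    exact ⟨.fl a, fun n => by simp only [Pool.Agent.H638.GP.Ex.ev]; rw [ha]⟩

/-- **Main result**: automatic sequences `c t` in arbitrary bases `k t`, generalised polynomials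
`g i`, combinations `φ i` of real powers, a digital function `F`, an IP* set `B` and a set `Z` of
density zero. -/
theorem result.{u, v} {m s w : ℕ} {C : Type u} (k : Fin m → ℕ) (hk : ∀ t, 2 ≤ k t)
    (c : Fin m → ℕ → C) (hc : ∀ t, IsAutomatic (k t) (c t))
    (g : Fin s → ℕ → ℝ) (hg : ∀ i, GenPoly (g i))
    (φ : Fin w → ℕ → ℝ) (hφ : ∀ i, RealPowers (φ i)) (θ : Fin w → ℝ) (ε : ℝ) (hε : 0 < ε)
    {G : Type v} [AddCommGroup G] [TopologicalSpace G] [IsTopologicalAddGroup G] [CompactSpace G]
    (F : ℕ → G) (hF : Digital F) (W : Set G) (hW : W ∈ 𝓝 (0 : G))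
    (B : Set ℕ) (hB : IPStar B) (Z : Set ℕ) (hZ : DensityZero Z) (N : ℕ) :
    ∃ x y z : ℕ, N < x ∧ N < y ∧ N < z ∧ x ^ 2 + y ^ 2 = z ^ 2 ∧
      Similar c g φ θ x y ∧ Similar c g φ θ y z ∧
      (∀ i, Near ε (φ i x) ∧ Near ε (φ i y) ∧ Near ε (φ i z)) ∧
      (F x ∈ W ∧ F y ∈ W ∧ F z ∈ W) ∧ (x ∈ B ∧ y ∈ B ∧ z ∈ B) ∧ (x ∉ Z ∧ y ∉ Z ∧ z ∉ Z) := by
  choose e he using fun i => (hg i).toEx
  have hOk : ∀ i : Fin 3, Pool.Agent.K7.H63.PY.Ok
      ((![{n | F n ∈ W}, B, Zᶜ] : Fin 3 → Set ℕ) i) := by
    intro i
    fin_cases i
    · exact Or.inl (Pool.Agent.K7.H63.PY.dig_ip hF hW)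
    · exact Or.inl hB
    · refine Or.inr ?_
      show Pool.Agent.K7.H63.PY.DZ (Zᶜ)ᶜ
      rw [compl_compl]
      exact hZ
  obtain ⟨x, y, z, hx, hy, hz, hxyz, ⟨h1, h2, -, h3⟩, ⟨h4, h5, -, h6⟩, hsd, hBZ, -, -⟩ :=
    Pool.Agent.K7.H63.PY.main1 k hk c hc e φ hφ θ hε _ hOk (fun i : Fin 0 => i.elim0)
      (fun i => i.elim0) (fun _ => (0 : UnitAddCircle)) (fun _ _ _ _ => by rw [add_zero])
      Filter.univ_mem N
  simp only [he] at h2 h5
  exact ⟨x, y, z, hx, hy, hz, hxyz, ⟨h1, h2, h3⟩, ⟨h4, h5, h6⟩, hsd, hBZ 0, hBZ 1, hBZ 2⟩

end Pool.Agent.Results.MP_0f91f8_co.RealPowersIPStarSets
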